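import Mathlib
import Pool.Agent.SWT93.Stmts
import Pool.Agent.SWT80.Ops2

/-!
# The value at a cut vertex, two opened edges, a new leg on an edge
-/

set_option autoImplicit false

namespace Pool.Agent.SWT65

open Equiv Pool.Agent.SWT49 Pool.Agent.SWT80 Pool.Agent.SWT93

variable {V W M : Type} {n : ℕ}

open Classical in
/-- The value of `F` on the graph `G` cut at the vertex of `x` (zero if `x` is a leg). -/
noncomputable def at3 [Zero M] (F : (V : Type) → Gr V (n + 3) → M) (V : Type) (G : Gr V n) (x : V) :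
    M := if hx : G.r x = x then 0 else F V (G.cut x hx)

/-- Two edges are opened: the legs `n`, `n + 1` are at `h`, `e h` and the legs `n + 2`, `n + 3` are
at `h'`, `e h'`. -/
noncomputable def opn2 (G : Gr V n) (h h' : V) : Gr ((V ⊕ Bool) ⊕ Bool) (n + 2 + 2) :=
  (G.opn h).opn (Sum.inl h')

/-! ### A new leg on an edge -/

open Classical in
/-- The edges after the addition of a leg to the edge of `h`: `h - inr 0`, `e h - inr 1`,
`inr 2 - inr 3`. -/
noncomputable def addE (G : Gr V n) (h : V) : V ⊕ Fin 4 → V ⊕ Fin 4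
  | Sum.inl v => if v = h then Sum.inr 0 else if v = G.e h then Sum.inr 1 else Sum.inl (G.e v)
  | Sum.inr 0 => Sum.inl h
  | Sum.inr 1 => Sum.inl (G.e h)
  | Sum.inr 2 => Sum.inr 3
  | Sum.inr 3 => Sum.inr 2

theorem addE_h (G : Gr V n) (h : V) : addE G h (Sum.inl h) = Sum.inr 0 := if_pos rfl

theorem addE_eh (G : Gr V n) (h : V) : addE G h (Sum.inl (G.e h)) = Sum.inr 1 :=
  (if_neg (G.e1 h)).trans (if_pos rfl)

theorem addE_o (G : Gr V n) {h v : V} (h1 : v ≠ h) (h2 : v ≠ G.e h) :
    addE G h (Sum.inl v) = Sum.inl (G.e v) := (if_neg h1).trans (if_neg h2)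

theorem addE2 (G : Gr V n) (h : V) (w : V ⊕ Fin 4) : addE G h (addE G h w) = w := by
  rcases w with v | t
  · by_cases h1 : v = h
    · rw [h1, addE_h]; rfl
    by_cases h2 : v = G.e h
    · rw [h2, addE_eh]; rfl
    rw [addE_o G h1 h2, addE_o G (fun h3 => h2 (by rw [← h3, G.e2])) (fun h3 => h1 (G.e_inj h3)),
      G.e2]
  · fin_cases t
    · exact addE_h G h
    · exact addE_eh G h
    · rfl
    · rfl

theorem addE1 (G : Gr V n) (h : V) (w : V ⊕ Fin 4) : addE G h w ≠ w := by
  rcases w with v | t
  · by_cases h1 : v = h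
    · rw [h1, addE_h]
      exact Sum.inr_ne_inl
    by_cases h2 : v = G.e h
    · rw [h2, addE_eh]
      exact Sum.inr_ne_inl
    rw [addE_o G h1 h2]
    exact fun h3 => G.e1 v (Sum.inl.inj h3)
  · fin_cases t
    · exact Sum.inl_ne_inr
    · exact Sum.inl_ne_inr
    · intro h3
      exact absurd (Sum.inr.inj h3) (by decide)
    · intro h3
      exact absurd (Sum.inr.inj h3) (by decide)

/-- The cyclic orders after the addition of a leg: the new vertex is
`(inr 0, inr 1, inr 2)`. -/
def addR (G : Gr V n) : V ⊕ Fin 4 → V ⊕ Fin 4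
  | Sum.inl v => Sum.inl (G.r v)
  | Sum.inr 0 => Sum.inr 1
  | Sum.inr 1 => Sum.inr 2
  | Sum.inr 2 => Sum.inr 0
  | Sum.inr 3 => Sum.inr 3

theorem addR3 (G : Gr V n) (w : V ⊕ Fin 4) : addR G (addR G (addR G w)) = w := by
  rcases w with v | t
  · show Sum.inl (G.r (G.r (G.r v))) = _
    rw [G.r3]
  · fin_cases t <;> rfl

/-- The legs after the addition of a leg, which gets the index `j`. -/
def addL (G : Gr V n) (j : Fin (n + 1)) : Fin (n + 1) → V ⊕ Fin 4 :=
  Fin.insertNth (α := fun _ => V ⊕ Fin 4) j (Sum.inr 3) (fun i => Sum.inl (G.leg i))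

theorem addL_new (G : Gr V n) (j : Fin (n + 1)) : addL G j j = Sum.inr 3 :=
  Fin.insertNth_apply_same _ _ _

theorem addL_old (G : Gr V n) (j : Fin (n + 1)) (i : Fin n) :
    addL G j (j.succAbove i) = Sum.inl (G.leg i) := Fin.insertNth_apply_succAbove _ _ _ _

theorem addL_inj (G : Gr V n) (j : Fin (n + 1)) : Function.Injective (addL G j) := by
  intro a b h
  rcases Fin.eq_self_or_eq_succAbove j a with rfl | ⟨a, rfl⟩
  · rcases Fin.eq_self_or_eq_succAbove a b with rfl | ⟨b, rfl⟩
    · rfl
    · rw [addL_new, addL_old] at h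
      cases h
  · rcases Fin.eq_self_or_eq_succAbove j b with rfl | ⟨b, rfl⟩
    · rw [addL_new, addL_old] at h
      cases h
    · rw [addL_old, addL_old] at h
      rw [G.inj (Sum.inl.inj h)]

/-- A new leg, with the index `j`, is attached to the edge of `h`: `h - inr 0`, `e h - inr 1`, the
new vertex is `(inr 0, inr 1, inr 2)` and `inr 2 - inr 3`, the new leg. -/
noncomputable def add (G : Gr V n) (j : Fin (n + 1)) (h : V) : Gr (V ⊕ Fin 4) (n + 1) where
  e := Function.Involutive.toPerm (addE G h) (addE2 G h)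
  r := Gr.perm3 (addR G) (addR3 G)
  leg := addL G j
  e2 := addE2 G h
  e1 := addE1 G h
  r3 := addR3 G
  inj := addL_inj G j
  fix w := by
    rw [Gr.perm3_apply]
    rcases w with v | t
    · constructor
      · intro h
        obtain ⟨i, hi⟩ := (G.fix v).1 (Sum.inl.inj h)
        exact ⟨j.succAbove i, by rw [addL_old, hi]⟩
      · rintro ⟨i, hi⟩
        rcases Fin.eq_self_or_eq_succAbove j i with rfl | ⟨i, rfl⟩
        · rw [addL_new] at hi
          cases hi
        · rw [addL_old] at hi
          have h1 := Sum.inl.inj hi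
          subst h1
          show Sum.inl (G.r (G.leg i)) = _
          rw [G.r_leg]
    · constructor
      · intro h
        have h3 : t = 3 := by
          fin_cases t
          · exact absurd (Sum.inr.inj h) (by decide)
          · exact absurd (Sum.inr.inj h) (by decide)
          · exact absurd (Sum.inr.inj h) (by decide)
          · rfl
        exact ⟨j, by rw [addL_new, h3]⟩
      · rintro ⟨i, hi⟩
        rcases Fin.eq_self_or_eq_succAbove j i with rfl | ⟨i, rfl⟩
        · rw [addL_new] at hi
          rw [← hi]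
          rfl
        · rw [addL_old] at hi
          cases hi

end Pool.Agent.SWT65
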