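import Mathlib
import Pool.Agent.SWT65.Ops
import Pool.Agent.SWT84.Cy
import Pool.Agent.SWT80.Fields

/-!
# The level with three loops: interfaces of the modules

`n + 1` is the number of the ordinary legs (`10` in the application), even and `1` modulo `3`, and
`3 m = 0` in `M`. `c` is a form (the differences of the functional to be found).

* A graph with one loop has `4 n` half-edges, a graph with three loops `4 n + 12`.
* A graph with three special legs (the last three ones) is a graph with three loops with one vertex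
  cut, the hub. A graph with four special legs is a graph with three loops with two edges opened.
-/

set_option autoImplicit false

namespace Pool.Agent.SWT65

open Equiv Pool.Agent.SWT49 Pool.Agent.SWT80 Pool.Agent.SWT93 Pool.Agent.SWT84

variable {V W M : Type} {n : ℕ} [AddCommGroup M]

/-- The graph is connected and has one loop. -/
structure One (G : Gr V n) : Prop where
  conn : SWT93.GConn G
  card : Nat.card V = 4 * n

/-- The graph is connected and has three loops. -/
structure Three (G : Gr V n) : Prop where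
  conn : SWT93.GConn G
  card : Nat.card V = 4 * n + 12

/-! ### M1: the one-loop theorem -/

/-- A natural and antisymmetric function on the wheels. -/
structure OnWh (g : (V : Type) → Gr V n → M) : Prop where
  iso : ∀ (V W : Type) [Finite V] (f : V ≃ W) (G : Gr V n), One G → SWT93.NoCherry G →
    g W (G.map f) = g V G
  as : ∀ (V : Type) [Finite V] (G : Gr V n) (x : V), One G → SWT93.NoCherry G → G.r x ≠ x →
    g V (G.flip x) = - g V G

/-- M1, existence: a function on the wheels extends to a functional which lives on the graphs with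
one loop. -/
def S_ext (M : Type) [AddCommGroup M] : Prop :=
  ∀ n : ℕ, 3 ≤ n → ¬ 3 ∣ n → ∀ g : (V : Type) → Gr V n → M, OnWh g →
    ∃ F : (V : Type) → Gr V n → M, Rel F ∧
      (∀ (V : Type) [Finite V] (G : Gr V n), One G → SWT93.NoCherry G → F V G = g V G) ∧
      ∀ (V : Type) [Finite V] (G : Gr V n), ¬ One G → F V G = 0

/-- M1, uniqueness. -/
def S_uniq (M : Type) [AddCommGroup M] : Prop :=
  ∀ n : ℕ, 3 ≤ n → ∀ (V : Type) [Finite V] (L : Gr V n → M),
    (∀ (I J X : Gr V n) (x : V), Gr.Loc I J X x → One I → L I = L J - L X) →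
    (∀ G : Gr V n, One G → SWT93.NoCherry G → L G = 0) → ∀ G : Gr V n, One G → L G = 0

/-! ### M3, M4: one hub -/

/-- A functional on the graphs with a hub, with the differences `c` in the ordinary legs and
alternating in the three special legs. -/
structure Hub (c : (V : Type) → Gr V (n + 1) → Fin n → M)
    (W : (V : Type) → Gr V (n + 1 + 3) → M) : Prop where
  rel : Rel W
  off : ∀ (V : Type) [Finite V] (R : Gr V (n + 1 + 3)), ¬ One R → W V R = 0
  alt : ∀ (V : Type) [Finite V] (R : Gr V (n + 1 + 3)) (τ : Perm (Fin 3)),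
    W V (pq (1 : Perm (Fin (n + 1))) τ • R) = (Perm.sign τ : ℤ) • W V R
  diff : ∀ (V : Type) [Finite V] (R : Gr V (n + 1 + 3)) (i : Fin n), One R →
    W V R - W V (pq (s i) (1 : Perm (Fin 3)) • R) = c V R.join i

/-- The slide of a hair at the hub: the hair is the third half-edge `h'` at the vertex of `e x`, and
the hub is the vertex of `x`, respectively the vertex of `h`. -/
def Slide (W : (V : Type) → Gr V (n + 3) → M) : Prop :=
  ∀ (V : Type) [Finite V] (I J X : Gr V n) (x h h' : V) (i : Fin n), Gr.Loc I J X x →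
    (h = I.r (I.e x) ∧ h' = I.r (I.r (I.e x)) ∨ h' = I.r (I.e x) ∧ h = I.r (I.r (I.e x))) →
    I.e h' = I.leg i → at3 W V I x = at3 W V J h - at3 W V X h

/-- M3. -/
def S_hub (M : Type) [AddCommGroup M] : Prop :=
  ∀ n : ℕ, 4 ≤ n + 1 → Even (n + 1) → (n + 1) % 3 = 1 →
    ∀ c : (V : Type) → Gr V (n + 1) → Fin n → M, Form c →
      ∃ W : (V : Type) → Gr V (n + 1 + 3) → M, Hub c W

/-- M4: only for the differences of a functional `F₀` with `n` legs (helper1: false in general). -/
def S_slide (M : Type) [AddCommGroup M] : Prop :=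
  ∀ n : ℕ, 4 ≤ n + 1 → Even (n + 1) → (n + 1) % 3 = 1 →
    ∀ F₀ : (V : Type) → Gr V n → M, Rel F₀ → Form (dif F₀) →
      ∀ W : (V : Type) → Gr V (n + 1 + 3) → M, Hub (dif F₀) W → Slide W

/-! ### M5: independence of the hub -/

/-- If a special leg is on the rim then the hub may be moved to its vertex. -/
def Hi (W : (V : Type) → Gr V (n + 3) → M) : Prop :=
  ∀ (V : Type) [Finite V] (R : Gr V (n + 3)) (S : Set V) (k : Fin 3), One R → Cy R S →
    R.r (R.e (R.leg (Fin.natAdd n k))) ∈ S →
    W V R = at3 W V R.join (R.e (R.leg (Fin.natAdd n k)))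

/-- M5. -/
def S_hi (M : Type) [AddCommGroup M] : Prop :=
  ∀ n : ℕ, 4 ≤ n + 1 → Even (n + 1) → (n + 1) % 3 = 1 →
    ∀ c : (V : Type) → Gr V (n + 1) → Fin n → M, Form c →
      (∀ W : (V : Type) → Gr V (n + 1 + 3) → M, Hub c W → Slide W) →
      (∃ W : (V : Type) → Gr V (n + 1 + 3) → M, Hub c W) →
      ∃ W : (V : Type) → Gr V (n + 1 + 3) → M, Hub c W ∧ Hi W

/-! ### M6: two opened edges -/

/-- A functional on the graphs with two opened edges. `W₂` is the functional with a hub. -/
structure Pair (c : (V : Type) → Gr V (n + 1) → Fin n → M)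
    (W₂ : (V : Type) → Gr V (n + 1 + 3) → M) (W : (V : Type) → Gr V (n + 1 + 2 + 2) → M) :
    Prop where
  rel : Rel W
  off : ∀ (V : Type) [Finite V] (T : Gr V (n + 1 + 2 + 2)), ¬ One T → W V T = 0
  /-- a special leg on the rim: the value with the hub at its vertex -/
  hub : ∀ (V : Type) [Finite V] (G : Gr V (n + 1)) (h k : V) (S : Set ((V ⊕ Bool) ⊕ Bool)),
    One (opn2 G h k) → Cy (opn2 G h k) S → Sum.inl (Sum.inl (G.r k)) ∈ S →
    W _ (opn2 G h k) = at3 W₂ V G k
  sw₁ : ∀ (V : Type) [Finite V] (G : Gr V (n + 1)) (h k : V), One (opn2 G h k) →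
    W _ (opn2 G (G.e h) k) = W _ (opn2 G h k)
  sw₂ : ∀ (V : Type) [Finite V] (G : Gr V (n + 1)) (h k : V), One (opn2 G h k) →
    W _ (opn2 G h (G.e k)) = W _ (opn2 G h k)
  sw : ∀ (V : Type) [Finite V] (G : Gr V (n + 1)) (h k : V), One (opn2 G h k) →
    W _ (opn2 G k h) = W _ (opn2 G h k)
  diff : ∀ (V : Type) [Finite V] (G : Gr V (n + 1)) (h k : V) (i : Fin n), One (opn2 G h k) →
    W _ (opn2 G h k) - W _ (opn2 (s i • G) h k) = c V G i
  /-- the opened edge `x` moves past the letter `z`, an ordinary leg or the end of the other opened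
  edge; the vertex is `{x, y, z}` -/
  tv : ∀ (V : Type) [Finite V] (G : Gr V (n + 1)) (h x y z : V),
    (y = G.r x ∧ z = G.r (G.r x) ∨ z = G.r x ∧ y = G.r (G.r x)) →
    (z = h ∨ z = G.e h ∨ ∃ i, G.e z = G.leg i) → One (opn2 G h x) →
    W _ (opn2 G h x) = W _ (opn2 G h (G.e y))

/-- M6. -/
def S_pair (M : Type) [AddCommGroup M] : Prop :=
  ∀ n : ℕ, 4 ≤ n + 1 → Even (n + 1) → (n + 1) % 3 = 1 →
    ∀ (c : (V : Type) → Gr V (n + 1) → Fin n → M) (W₂ : (V : Type) → Gr V (n + 1 + 3) → M),
      Form c → Hub c W₂ → Slide W₂ → Hi W₂ →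
      ∃ W : (V : Type) → Gr V (n + 1 + 2 + 2) → M, Pair c W₂ W

/-! ### M7: exchange of an opened edge -/

/-- An opened edge may be exchanged for an edge of the rim. -/
def Exch (W : (V : Type) → Gr V (n + 2 + 2) → M) : Prop :=
  ∀ (V : Type) [Finite V] (G : Gr V n) (h k k' : V) (S : Set ((V ⊕ Bool) ⊕ Bool)),
    One (opn2 G h k) → Cy (opn2 G h k) S → Sum.inl (Sum.inl k') ∈ S →
    W _ (opn2 G h k) = W _ (opn2 G h k')

/-- M7. -/
def S_exch (M : Type) [AddCommGroup M] : Prop :=
  ∀ (n : ℕ) (c : (V : Type) → Gr V (n + 1) → Fin n → M)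
    (W₂ : (V : Type) → Gr V (n + 1 + 3) → M) (W : (V : Type) → Gr V (n + 1 + 2 + 2) → M),
      4 ≤ n + 1 → Hub c W₂ → Pair c W₂ W → Exch W

/-! ### M8a: openable pairs of edges -/

/-- One step between openable pairs of edges: the second edge is exchanged for an edge of the rim,
or the two edges are exchanged, or a half-edge is replaced by the other half of the edge. -/
inductive Link (G : Gr V n) : V → V → V → V → Prop
  | refl (h k : V) : Link G h k h k
  | exch (h k h' k' l : V) (S : Set ((V ⊕ Bool) ⊕ Bool)) : Link G h k h' k' →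
      One (opn2 G h' k') → Cy (opn2 G h' k') S → Sum.inl (Sum.inl l) ∈ S → Link G h k h' l
  | swap (h k h' k' : V) : Link G h k h' k' → One (opn2 G h' k') → Link G h k k' h'
  | e (h k h' k' : V) : Link G h k h' k' → One (opn2 G h' k') → Link G h k h' (G.e k')

/-- M8a: existence of an openable pair which avoids a given inner edge between two different
vertices, and connection of the openable pairs. -/
def S_link : Prop :=
  ∀ (n : ℕ) (V : Type) [Finite V] (G : Gr V (n + 1)), Three G →
    (∀ x, Gr.Ok G x → ∃ h k, One (opn2 G h k) ∧ h ≠ x ∧ h ≠ G.e x ∧ k ≠ x ∧ k ≠ G.e x) ∧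
    (∃ h k, One (opn2 G h k)) ∧
    ∀ h k h' k', One (opn2 G h k) → One (opn2 G h' k') → Link G h k h' k'

/-! ### M8b: the functional on the graphs with three loops -/

/-- A functional on the graphs with three loops. -/
structure Full (c : (V : Type) → Gr V (n + 1) → Fin n → M)
    (v : (V : Type) → Gr V (n + 1) → M) : Prop where
  rel : Rel v
  off : ∀ (V : Type) [Finite V] (G : Gr V (n + 1)), ¬ Three G → v V G = 0
  diff : ∀ (V : Type) [Finite V] (G : Gr V (n + 1)) (i : Fin n), Three G →
    v V G - v V (s i • G) = c V G i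

/-- M8b. -/
def S_full (M : Type) [AddCommGroup M] : Prop :=
  ∀ (n : ℕ) (c : (V : Type) → Gr V (n + 1) → Fin n → M)
    (W₂ : (V : Type) → Gr V (n + 1 + 3) → M) (W : (V : Type) → Gr V (n + 1 + 2 + 2) → M),
      4 ≤ n + 1 → Hub c W₂ → Pair c W₂ W → Exch W → ∃ v : (V : Type) → Gr V (n + 1) → M, Full c v

end Pool.Agent.SWT65
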