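import Mathlib
import Pool.Agent.SWT93.Lvl
import Pool.Agent.SWT75.All

/-!
# Level 10 at `Fin 72`

The functional side of the proof that the Jacobi diagrams of the circle have 3-torsion in
degree 12 is complete: the functional of the ladder diagrams extends to all diagrams with eight
legs at the circle on the half-edges `Fin 72`.
-/

namespace Pool.Agent.SWT65

open Pool.Agent.SWT80 Pool.Agent.SWT45 Pool.Agent.SWT93

/-- Level 10 at `Fin 72`. -/
theorem in10 : In10 72 z8 := SWT93.in10_of_pair (SWT75.pair (by decide))

end Pool.Agent.SWT65
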